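import Mathlib
import Pool.Agent.Lib.MP_e9d743_lc.E2_Final

/-!
# 1-h-minimality implies ω-h-minimality in equicharacteristic zero

Every 1-h-minimal theory of non-trivially valued fields of equicharacteristic zero is ω-h-minimal.
As power-bounded `T`-convex valued fields are known to be 1-h-minimal, they are ω-h-minimal.
The definitions are in `Pool.Agent.Lib.MP_e9d743_lc.St`.
-/

set_option autoImplicit false

open FirstOrder FirstOrder.Language

universe u v w

namespace Pool.Agent.Results.MP_e9d743_lc.OmegaOfOne

/-- Let `L` be a language with symbols `S` for addition, multiplication and the valuation ring and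
let `T` be an `L`-theory. If `T`, as a theory of non-trivially valued fields of equicharacteristic
zero, is 1-h-minimal then it is ω-h-minimal. -/
theorem result {L : FirstOrder.Language.{u, v}} (S : Pool.Agent.MP_e9d743_lc.ValSymb L)
    (T : L.Theory) (h : Pool.Agent.MP_e9d743_lc.HMin.{u, v, w} S T 1) :
    Pool.Agent.MP_e9d743_lc.HMin.{u, v, w} S T ⊤ :=
  Pool.Agent.MP_e9d743_lc.omega_of_one S T h

end Pool.Agent.Results.MP_e9d743_lc.OmegaOfOne
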